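import Pool.Agent.W2helper5.KA.Stm

/-!
# Piece PER of project KA
-/

set_option autoImplicit false

namespace Pool.Agent.W2helper52.KA

open Pool.Agent.W2helper5.KA

theorem PER : P_PER := by
  intro k F Γ _ _ _ D p N hT hX hP
  have h1 : ∀ m, P D p (m + N) = P D p m := by
    intro m
    unfold P at hP ⊢
    rw [Function.iterate_add_apply, hP]
  have h2 : ∀ m, T D p (m + N) = T D p m := by
    intro m
    induction m with
    | zero => rw [Nat.zero_add, hT]; rfl
    | succ m ih =>
      rw [show m + 1 + N = (m + N) + 1 by omega]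
      show (P D p (m + N)).1 * T D p (m + N) = (P D p m).1 * T D p m
      rw [ih, h1]
  have h3 : ∀ m, X D p (m + N) = X D p m := by
    intro m
    induction m with
    | zero => rw [Nat.zero_add, hX]; rfl
    | succ m ih =>
      rw [show m + 1 + N = (m + N) + 1 by omega]
      show (P D p (m + N)).2 * X D p (m + N) = (P D p m).2 * X D p m
      rw [ih, h1]
  have h4 : ∀ m, c D p (m + N) = c D p m * c D p N := by
    intro m
    induction m with
    | zero =>
      rw [Nat.zero_add]
      show c D p N = 1 * c D p N
      rw [one_mul]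
    | succ m ih =>
      rw [show m + 1 + N = (m + N) + 1 by omega]
      show D.τ p.2 (P D p (m + N)).1 (T D p (m + N)) *
        D.σ (P D p (m + N)).1 (P D p (m + N)).2 (X D p (m + N)) * c D p (m + N) =
        D.τ p.2 (P D p m).1 (T D p m) * D.σ (P D p m).1 (P D p m).2 (X D p m) * c D p m *
          c D p N
      rw [ih, h1, h2, h3, mul_assoc _ (c D p m) (c D p N)]
  intro q
  induction q with
  | zero =>
    rw [Nat.zero_mul]
    exact ⟨rfl, rfl, rfl, (pow_zero _).symm⟩
  | succ q ih =>
    obtain ⟨i1, i2, i3, i4⟩ := ih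
    rw [Nat.succ_mul]
    exact ⟨by rw [h2, i1], by rw [h3, i2], by rw [h1, i3], by rw [h4, i4, pow_succ]⟩

end Pool.Agent.W2helper52.KA
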